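import Pool.Agent.P8H8.EV.Stm

/-!
# Project EV (helper8), package BVA: algebra of boundary values
-/

set_option autoImplicit false

open Set Filter Metric
open scoped Topology ContDiff

namespace Pool.Agent.P8H88.EV

open Pool.Agent.P8H8.EV

/-- the left half-plane -/
abbrev Hp : Set ℂ := {ζ | ζ.re < 0}

theorem isOpen_Hp : IsOpen Hp := isOpen_lt Complex.continuous_re continuous_const

theorem Dy_congr : ∀ (k : ℕ) {f1 f2 : ℂ → ℂ}, (∀ ζ : ℂ, ζ.re < 0 → f2 ζ = f1 ζ) →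
    ∀ ζ : ℂ, ζ.re < 0 → Dy^[k] f2 ζ = Dy^[k] f1 ζ := by
  intro k
  induction k with
  | zero => intro f1 f2 h; exact h
  | succ k ih =>
    intro f1 f2 h
    rw [Function.iterate_succ_apply, Function.iterate_succ_apply]
    apply ih
    intro ζ hζ
    have h1 : f2 =ᶠ[𝓝 ζ] f1 := by
      filter_upwards [isOpen_Hp.mem_nhds hζ] with z hz
      exact h z hz
    unfold Dy
    rw [h1.fderiv_eq]

theorem Dy_smooth {f : ℂ → ℂ} (hf : ContDiffOn ℝ ∞ f Hp) : ContDiffOn ℝ ∞ (Dy f) Hp := by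
  have h1 : ContDiffOn ℝ ∞ (fderiv ℝ f) Hp := hf.fderiv_of_isOpen isOpen_Hp (m := ∞) le_rfl
  exact h1.clm_apply contDiffOn_const

theorem sm_diff {f : ℂ → ℂ} (hf : ContDiffOn ℝ ∞ f Hp) {ζ : ℂ} (hζ : ζ.re < 0) :
    DifferentiableAt ℝ f ζ :=
  (hf.contDiffAt (isOpen_Hp.mem_nhds hζ)).differentiableAt (by simp)

theorem Dy_iter_add : ∀ (k : ℕ) {f1 f2 : ℂ → ℂ}, ContDiffOn ℝ ∞ f1 Hp → ContDiffOn ℝ ∞ f2 Hp →
    ∀ ζ : ℂ, ζ.re < 0 → Dy^[k] (fun z => f1 z + f2 z) ζ = Dy^[k] f1 ζ + Dy^[k] f2 ζ := by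
  intro k
  induction k with
  | zero => intro f1 f2 _ _ ζ _; rfl
  | succ k ih =>
    intro f1 f2 h1 h2 ζ hζ
    rw [Function.iterate_succ_apply, Function.iterate_succ_apply, Function.iterate_succ_apply,
      ← ih (Dy_smooth h1) (Dy_smooth h2) ζ hζ]
    refine Dy_congr k (fun z hz => ?_) ζ hζ
    unfold Dy
    rw [fderiv_fun_add (sm_diff h1 hz) (sm_diff h2 hz)]
    rfl

theorem deriv_sm {g : ℝ → ℂ} (hg : ContDiff ℝ ∞ g) : ContDiff ℝ ∞ (deriv g) :=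
  (contDiff_infty_iff_deriv.1 hg).2

theorem deriv_iter_add : ∀ (k : ℕ) {g1 g2 : ℝ → ℂ}, ContDiff ℝ ∞ g1 → ContDiff ℝ ∞ g2 →
    deriv^[k] (fun y => g1 y + g2 y) = fun y => deriv^[k] g1 y + deriv^[k] g2 y := by
  intro k
  induction k with
  | zero => intro g1 g2 _ _; rfl
  | succ k ih =>
    intro g1 g2 h1 h2
    have e : deriv (fun y => g1 y + g2 y) = fun y => deriv g1 y + deriv g2 y := by
      funext y
      exact deriv_fun_add (h1.differentiable (by simp) y) (h2.differentiable (by simp) y)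
    rw [Function.iterate_succ_apply, e, ih (deriv_sm h1) (deriv_sm h2)]
    rfl

theorem UL_congr {f1 f2 : ℂ → ℂ} {g : ℝ → ℂ} (h : ∀ ζ : ℂ, ζ.re < 0 → f2 ζ = f1 ζ) (hu : UL f1 g) :
    UL f2 g := by
  intro ε hε
  obtain ⟨δ, hδ, h1⟩ := hu ε hε
  refine ⟨δ, hδ, fun x y hx hx0 => ?_⟩
  rw [h _ (by simpa using hx0)]
  exact h1 x y hx hx0

theorem UL_add {f1 f2 : ℂ → ℂ} {g1 g2 : ℝ → ℂ} (h1 : UL f1 g1) (h2 : UL f2 g2) :
    UL (fun z => f1 z + f2 z) (fun y => g1 y + g2 y) := by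
  intro ε hε
  obtain ⟨δ1, hδ1, h1⟩ := h1 (ε / 2) (by positivity)
  obtain ⟨δ2, hδ2, h2⟩ := h2 (ε / 2) (by positivity)
  refine ⟨min δ1 δ2, lt_min hδ1 hδ2, fun x y hx hx0 => ?_⟩
  have k1 := h1 x y (by linarith [min_le_left δ1 δ2]) hx0
  have k2 := h2 x y (by linarith [min_le_right δ1 δ2]) hx0
  calc ‖f1 (x + y * Complex.I) + f2 (x + y * Complex.I) - (g1 y + g2 y)‖
      = ‖(f1 (x + y * Complex.I) - g1 y) + (f2 (x + y * Complex.I) - g2 y)‖ := by congr 1; ring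
    _ ≤ ‖f1 (x + y * Complex.I) - g1 y‖ + ‖f2 (x + y * Complex.I) - g2 y‖ := norm_add_le _ _
    _ < ε := by linarith

/-- continuous periodic functions are bounded -/
theorem bdd_per {g : ℝ → ℂ} (hc : Continuous g) (hp : ∀ y, g (y + 2 * Real.pi) = g y) :
    ∃ M : ℝ, 0 < M ∧ ∀ y, ‖g y‖ ≤ M := by
  have hper : Function.Periodic g (2 * Real.pi) := hp
  obtain ⟨M, hM⟩ := (isCompact_Icc (a := (0 : ℝ)) (b := 2 * Real.pi)).exists_bound_of_continuousOn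
    hc.continuousOn
  refine ⟨max M 1, lt_max_of_lt_right one_pos, fun y => ?_⟩
  obtain ⟨y', hy', he⟩ := hper.exists_mem_Ico₀ (by positivity) y
  rw [he]
  exact (hM y' ⟨hy'.1, hy'.2.le⟩).trans (le_max_left _ _)

theorem UL_mul {f1 f2 : ℂ → ℂ} {g1 g2 : ℝ → ℂ} {M1 M2 : ℝ} (hM1 : 0 < M1) (hM2 : 0 < M2)
    (b1 : ∀ y, ‖g1 y‖ ≤ M1) (b2 : ∀ y, ‖g2 y‖ ≤ M2) (h1 : UL f1 g1) (h2 : UL f2 g2) :
    UL (fun z => f1 z * f2 z) (fun y => g1 y * g2 y) := by
  intro ε hε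
  obtain ⟨δ1, hδ1, h1⟩ := h1 (min 1 (ε / (2 * (M2 + 1)))) (by positivity)
  obtain ⟨δ2, hδ2, h2⟩ := h2 (min 1 (ε / (2 * M1))) (by positivity)
  refine ⟨min δ1 δ2, lt_min hδ1 hδ2, fun x y hx hx0 => ?_⟩
  have k1 := h1 x y (by linarith [min_le_left δ1 δ2]) hx0
  have k2 := h2 x y (by linarith [min_le_right δ1 δ2]) hx0
  set F1 := f1 (x + y * Complex.I)
  set F2 := f2 (x + y * Complex.I)
  have k1' : ‖F1 - g1 y‖ < ε / (2 * (M2 + 1)) := k1.trans_le (min_le_right _ _)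
  have k2' : ‖F2 - g2 y‖ < ε / (2 * M1) := k2.trans_le (min_le_right _ _)
  have k2'' : ‖F2 - g2 y‖ < 1 := k2.trans_le (min_le_left _ _)
  have hF2 : ‖F2‖ ≤ M2 + 1 := by
    calc ‖F2‖ = ‖(F2 - g2 y) + g2 y‖ := by congr 1; ring
      _ ≤ ‖F2 - g2 y‖ + ‖g2 y‖ := norm_add_le _ _
      _ ≤ M2 + 1 := by linarith [b2 y]
  calc ‖F1 * F2 - g1 y * g2 y‖ = ‖(F1 - g1 y) * F2 + g1 y * (F2 - g2 y)‖ := by congr 1; ring
    _ ≤ ‖(F1 - g1 y) * F2‖ + ‖g1 y * (F2 - g2 y)‖ := norm_add_le _ _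
    _ = ‖F1 - g1 y‖ * ‖F2‖ + ‖g1 y‖ * ‖F2 - g2 y‖ := by rw [norm_mul, norm_mul]
    _ ≤ ‖F1 - g1 y‖ * (M2 + 1) + M1 * ‖F2 - g2 y‖ := by
        gcongr
        exact b1 y
    _ < ε / (2 * (M2 + 1)) * (M2 + 1) + M1 * (ε / (2 * M1)) := by
        gcongr
    _ = ε := by field_simp; ring

theorem BV.deriv' {f : ℂ → ℂ} {g : ℝ → ℂ} (h : BV f g) : BV (Dy f) (deriv g) := by
  refine ⟨Dy_smooth h.sm, deriv_sm h.smg, fun y => ?_, fun k => ?_⟩
  · have e : (fun y => g (y + 2 * Real.pi)) = g := funext h.per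
    have h1 := deriv_comp_add_const g (2 * Real.pi) y
    rw [e] at h1
    exact h1.symm
  · have := h.lim (k + 1)
    rwa [Function.iterate_succ_apply, Function.iterate_succ_apply] at this

theorem mul_lim : ∀ (k : ℕ) {f1 f2 : ℂ → ℂ} {g1 g2 : ℝ → ℂ}, BV f1 g1 → BV f2 g2 →
    UL (Dy^[k] (fun z => f1 z * f2 z)) (deriv^[k] (fun y => g1 y * g2 y)) := by
  intro k
  induction k with
  | zero =>
    intro f1 f2 g1 g2 h1 h2
    obtain ⟨M1, hM1, b1⟩ := bdd_per h1.smg.continuous h1.per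
    obtain ⟨M2, hM2, b2⟩ := bdd_per h2.smg.continuous h2.per
    exact UL_mul hM1 hM2 b1 b2 (h1.lim 0) (h2.lim 0)
  | succ k ih =>
    intro f1 f2 g1 g2 h1 h2
    have e : deriv (fun y => g1 y * g2 y) = fun y => deriv g1 y * g2 y + g1 y * deriv g2 y := by
      funext y
      exact deriv_fun_mul (h1.smg.differentiable (by simp) y) (h2.smg.differentiable (by simp) y)
    rw [Function.iterate_succ_apply, Function.iterate_succ_apply, e,
      deriv_iter_add k ((deriv_sm h1.smg).mul h2.smg) (h1.smg.mul (deriv_sm h2.smg))]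
    have h3 := UL_add (ih (BV.deriv' h1) h2) (ih h1 (BV.deriv' h2))
    refine UL_congr (fun ζ hζ => ?_) h3
    rw [← Dy_iter_add k ((Dy_smooth h1.sm).mul h2.sm) (h1.sm.mul (Dy_smooth h2.sm)) ζ hζ]
    refine Dy_congr k (fun z hz => ?_) ζ hζ
    unfold Dy
    rw [fderiv_fun_mul (sm_diff h1.sm hz) (sm_diff h2.sm hz)]
    simp only [ContinuousLinearMap.add_apply, ContinuousLinearMap.smul_apply, smul_eq_mul]
    ring

theorem Dy_const (z : ℂ) : Dy (fun _ => z) = fun _ => 0 := by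
  funext ζ
  unfold Dy
  rw [fderiv_const_apply]
  rfl

theorem t_BVA : S_BVA := by
  refine ⟨?_, ?_, ?_, ?_, ?_⟩
  · intro f1 f2 g h1 h
    exact ⟨h1.sm.congr fun ζ hζ => h ζ hζ, h1.smg, h1.per, fun k => UL_congr (Dy_congr k h) (h1.lim k)⟩
  · intro f1 f2 g1 g2 h1 h2
    refine ⟨h1.sm.add h2.sm, h1.smg.add h2.smg, fun y => by rw [h1.per, h2.per], fun k => ?_⟩
    rw [deriv_iter_add k h1.smg h2.smg]
    exact UL_congr (Dy_iter_add k h1.sm h2.sm) (UL_add (h1.lim k) (h2.lim k))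
  · intro f1 f2 g1 g2 h1 h2
    exact ⟨h1.sm.mul h2.sm, h1.smg.mul h2.smg, fun y => by rw [h1.per, h2.per], fun k => mul_lim k h1 h2⟩
  · intro f g h
    exact BV.deriv' h
  · intro z
    refine ⟨contDiffOn_const, contDiff_const, fun _ => rfl, fun k => ?_⟩
    have e1 : ∀ k, Dy^[k + 1] (fun _ => z) = fun _ => 0 := by
      intro k
      induction k with
      | zero => exact Dy_const z
      | succ k ih => rw [Function.iterate_succ_apply', ih, Dy_const]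
    have e2 : ∀ k, deriv^[k + 1] (fun _ : ℝ => z) = fun _ => 0 := by
      intro k
      induction k with
      | zero => funext y; exact deriv_const y z
      | succ k ih =>
        rw [Function.iterate_succ_apply', ih]
        funext y
        exact deriv_const y 0
    intro ε hε
    refine ⟨1, one_pos, fun x y _ _ => ?_⟩
    cases k with
    | zero => simpa using hε
    | succ k =>
      rw [e1, e2]
      simpa using hε

end Pool.Agent.P8H88.EV
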