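import Pool.Agent.P8H88.EV.Bva
import Pool.Agent.P8H94.SV.Helm

/-!
# Project EV (helper8), package HIER: the hierarchy of boundary identities
-/

set_option autoImplicit false

open MeasureTheory Set Filter Metric
open scoped Topology ContDiff ComplexConjugate

namespace Pool.Agent.P8H88.EV

open Pool.Agent.TH298.Sch (SC dd Lr)
open Pool.Agent.R227.SA (la Dat)
open Pool.Agent.P8H8.SV
open Pool.Agent.P8H8.EV
open Pool.Agent.P8H94.SV (pk pk_loc exp_mem t_HELM)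

theorem open_of_dat {Ω : Set ℂ} {lam c : ℝ} {v : ℂ → ℝ} (D : Dat Ω lam c v) : IsOpen Ω := by
  refine Metric.isOpen_iff.2 fun x hx => ?_
  obtain ⟨r, hr, U, _, hb, _⟩ := D.loc x hx
  exact ⟨r, hr, hb⟩

theorem cont_line {f : ℂ → ℂ} (hf : ContinuousOn f Hp) {x : ℝ} (hx : x < 0) :
    Continuous fun y : ℝ => f (x + y * Complex.I) := by
  refine hf.comp_continuous (by fun_prop) (fun y => ?_)
  simpa using hx

theorem UL_bdd {f : ℂ → ℂ} {g : ℝ → ℂ} {M : ℝ} (h : UL f g) (hM : ∀ y, ‖g y‖ ≤ M) :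
    ∃ δ > 0, ∀ x y : ℝ, -δ < x → x < 0 → ‖f (x + y * Complex.I)‖ ≤ M + 1 := by
  obtain ⟨δ, hδ, h1⟩ := h 1 one_pos
  refine ⟨δ, hδ, fun x y hx hx0 => ?_⟩
  have h2 := h1 x y hx hx0
  calc ‖f (x + y * Complex.I)‖ = ‖(f (x + y * Complex.I) - g y) + g y‖ := by congr 1; ring
    _ ≤ ‖f (x + y * Complex.I) - g y‖ + ‖g y‖ := norm_add_le _ _
    _ ≤ M + 1 := by linarith [hM y]

theorem int_lim {h : ℂ → ℂ} {G : ℝ → ℂ} (hh : ContinuousOn h Hp) (hG : Continuous G) (hU : UL h G)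
    (h0 : ∀ x : ℝ, x < 0 → ∫ y in (0 : ℝ)..2 * Real.pi, h (x + y * Complex.I) = 0) :
    ∫ y in (0 : ℝ)..2 * Real.pi, G y = 0 := by
  by_contra hne
  set J := ∫ y in (0 : ℝ)..2 * Real.pi, G y with hJ
  have hJ0 : 0 < ‖J‖ := norm_pos_iff.2 hne
  have hpi := Real.pi_pos
  obtain ⟨δ, hδ, h1⟩ := hU (‖J‖ / (4 * Real.pi)) (by positivity)
  have hx : -(δ / 2) < 0 := by linarith
  have hc := cont_line hh hx
  have e : J = ∫ y in (0 : ℝ)..2 * Real.pi, (G y - h ((-(δ / 2) : ℝ) + y * Complex.I)) := by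
    rw [intervalIntegral.integral_sub (hG.intervalIntegrable _ _) (hc.intervalIntegrable _ _), h0 _ hx,
      sub_zero]
  have h2 : ‖∫ y in (0 : ℝ)..2 * Real.pi, (G y - h ((-(δ / 2) : ℝ) + y * Complex.I))‖ ≤
      ‖J‖ / (4 * Real.pi) * |2 * Real.pi - 0| := by
    refine intervalIntegral.norm_integral_le_of_norm_le_const fun y _ => ?_
    rw [norm_sub_rev]
    exact (h1 _ y (by linarith) hx).le
  rw [← e, sub_zero, abs_of_pos (by positivity)] at h2
  have h3 : ‖J‖ / (4 * Real.pi) * (2 * Real.pi) = ‖J‖ / 2 := by field_simp; ring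
  rw [h3] at h2
  linarith

/-- derivatives of real functions as complex functions -/
theorem cx1 {p : ℂ → ℝ} {Ω : Set ℂ} (ho : IsOpen Ω) (hp : ContDiffOn ℝ ∞ p Ω) (k : ℂ) {z : ℂ}
    (hz : z ∈ Ω) : fderiv ℝ (fun z => (p z : ℂ)) z k = (dd k p z : ℝ) := by
  have h1 : DifferentiableAt ℝ p z := (hp.contDiffAt (ho.mem_nhds hz)).differentiableAt (by simp)
  have h2 : HasFDerivAt (fun z => (p z : ℂ)) (Complex.ofRealCLM.comp (fderiv ℝ p z)) z :=
    Complex.ofRealCLM.hasFDerivAt.comp z h1.hasFDerivAt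
  rw [h2.fderiv]
  rfl

theorem dd_smooth {p : ℂ → ℝ} {Ω : Set ℂ} (ho : IsOpen Ω) (hp : ContDiffOn ℝ ∞ p Ω) (k : ℂ) :
    ContDiffOn ℝ ∞ (dd k p) Ω := by
  have h1 : ContDiffOn ℝ ∞ (fderiv ℝ p) Ω := hp.fderiv_of_isOpen ho (m := ∞) le_rfl
  exact h1.clm_apply contDiffOn_const

theorem cx2 {p : ℂ → ℝ} {Ω : Set ℂ} (ho : IsOpen Ω) (hp : ContDiffOn ℝ ∞ p Ω) (k : ℂ) {z : ℂ}
    (hz : z ∈ Ω) : fderiv ℝ (fun ζ => fderiv ℝ (fun z => (p z : ℂ)) ζ k) z k = (dd k (dd k p) z : ℝ) := by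
  have h1 : (fun ζ => fderiv ℝ (fun z => (p z : ℂ)) ζ k) =ᶠ[𝓝 z] fun ζ => ((dd k p ζ : ℝ) : ℂ) := by
    filter_upwards [ho.mem_nhds hz] with ζ hζ
    exact cx1 ho hp k hζ
  rw [h1.fderiv_eq]
  exact cx1 ho (dd_smooth ho hp k) k hz

theorem Dx_smooth {f : ℂ → ℂ} (hf : ContDiffOn ℝ ∞ f Hp) : ContDiffOn ℝ ∞ (Dx f) Hp := by
  have h1 : ContDiffOn ℝ ∞ (fderiv ℝ f) Hp := hf.fderiv_of_isOpen isOpen_Hp (m := ∞) le_rfl
  exact h1.clm_apply contDiffOn_const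

theorem dF_bdd {φ : ℂ → ℂ} {r : ℝ} (hφ : Dom φ r) : ∃ M : ℝ, 0 < M ∧ ∀ ζ : ℂ, ζ.re < 0 → ‖dF φ ζ‖ ≤ M := by
  have h1 : ContinuousOn (fun w => w * deriv φ w) (closedBall (0 : ℂ) 1) := by
    have h2 : ContinuousOn (deriv φ) (ball (0 : ℂ) r) := (hφ.hol.deriv isOpen_ball).continuousOn
    exact continuousOn_id.mul (h2.mono (closedBall_subset_ball hφ.hr))
  obtain ⟨M, hM⟩ := (isCompact_closedBall (0 : ℂ) 1).exists_bound_of_continuousOn h1
  refine ⟨max M 1, lt_max_of_lt_right one_pos, fun ζ hζ => ?_⟩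
  exact (hM _ (ball_subset_closedBall (exp_mem hζ))).trans (le_max_left _ _)

theorem t_HIER (hREC : S_REC) (hGREEN : S_GREEN) (hCHAIN : S_CHAIN) (hWPDE : S_WPDE) (hLIM : S_LIM) :
    S_HIER := by
  intro φ r lam c v hφ hlam hc D n a b
  have ho := open_of_dat D
  have hW := hWPDE _ lam c v ho D
  have hR := hREC φ r lam c v hφ D
  have hb : ∀ m, ∃ M δ : ℝ, 0 < M ∧ 0 < δ ∧ ∀ x y : ℝ, -δ < x → x < 0 →
      ‖W c v m (φ (Complex.exp (x + y * Complex.I)))‖ ≤ M := by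
    intro m
    obtain ⟨M, hM, hM'⟩ := bdd_per (hR m).smg.continuous (hR m).per
    obtain ⟨δ, hδ, h1⟩ := UL_bdd ((hR m).lim 0) hM'
    exact ⟨M + 1, δ, by linarith, hδ, h1⟩
  set Bf : ℂ → ℂ := fun z => ((pk v a b z : ℝ) : ℂ) with hBf
  have hpks : ContDiffOn ℝ ∞ (pk v a b) (φ '' ball 0 1) := fun z hz =>
    (pk_loc D a b hz).1.contDiffWithinAt
  have hBs : ContDiffOn ℝ ∞ Bf (φ '' ball 0 1) := fun z hz =>
    (Complex.ofRealCLM.contDiff.contDiffAt.comp z (pk_loc D a b hz).1).contDiffWithinAt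
  have hBe : ∀ z ∈ φ '' ball 0 1, Dx (Dx Bf) z + Dy (Dy Bf) z = -lam * Bf z := by
    intro z hz
    have h1 : Dx (Dx Bf) z = _ := cx2 ho hpks 1 hz
    have h2 : Dy (Dy Bf) z = _ := cx2 ho hpks Complex.I hz
    have h3 := (pk_loc D a b hz).2
    rw [h1, h2, ← Complex.ofReal_add]
    unfold la at h3
    rw [h3, hBf]
    push_cast
    ring
  have hGr := hGREEN φ r lam (W c v n) Bf hφ (hW n).1 hBs (hW n).2.2.2 hBe
  have hPs : ContDiffOn ℝ ∞ (PP φ v a b) Hp := (t_HELM φ r lam c v a b hφ D).1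
  have hBF : ContDiffOn ℝ ∞ (fun ζ => Bf (φ (Complex.exp ζ))) Hp := (hCHAIN φ r Bf hφ hBs).1
  have hAF : ContDiffOn ℝ ∞ (fun ζ => W c v n (φ (Complex.exp ζ))) Hp :=
    (hCHAIN φ r _ hφ (hW n).1).1
  -- the four boundary values
  have u1 : UL (fun ζ => W c v n (φ (Complex.exp ζ))) (fun t => c * U φ lam n t) := (hR n).lim 0
  set g2 : ℝ → ℂ := fun y => ((-(lam * c * ip (kf a b (γ φ y)) (N φ y)) : ℝ) : ℂ) with hg2
  have u2 : UL (Dx fun ζ => Bf (φ (Complex.exp ζ))) g2 := by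
    intro ε hε
    obtain ⟨δ, hδ, h1⟩ := hLIM φ r lam c v a b hφ D ε hε
    refine ⟨δ, hδ, fun x y hx hx0 => ?_⟩
    have h2 := (h1 x y hx hx0).2.2
    have hre : ((x : ℂ) + y * Complex.I).re < 0 := by simpa using hx0
    have h3 : Dx (fun ζ => Bf (φ (Complex.exp ζ))) (x + y * Complex.I) =
        ((dd 1 (PP φ v a b) (x + y * Complex.I) : ℝ) : ℂ) := cx1 isOpen_Hp hPs 1 hre
    rw [h3, hg2]
    simp only
    rw [← Complex.ofReal_sub, Complex.norm_real, Real.norm_eq_abs, sub_neg_eq_add]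
    exact h2
  have u3 : UL (fun ζ => Bf (φ (Complex.exp ζ))) (fun _ => 0) := by
    intro ε hε
    obtain ⟨δ, hδ, h1⟩ := hLIM φ r lam c v a b hφ D ε hε
    refine ⟨δ, hδ, fun x y hx hx0 => ?_⟩
    have h2 := (h1 x y hx hx0).1
    rw [sub_zero]
    change ‖((PP φ v a b (x + y * Complex.I) : ℝ) : ℂ)‖ < ε
    rw [Complex.norm_real, Real.norm_eq_abs]
    exact h2
  obtain ⟨MF, hMF, hMF'⟩ := dF_bdd hφ
  have hzb : ∃ M δ : ℝ, 0 < M ∧ 0 < δ ∧ ∀ x y : ℝ, -δ < x → x < 0 →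
      ‖dzb (W c v n) (φ (Complex.exp (x + y * Complex.I)))‖ ≤ M := by
    have hmem : ∀ x y : ℝ, x < 0 → φ (Complex.exp (x + y * Complex.I)) ∈ φ '' ball 0 1 := by
      intro x y hx0
      refine mem_image_of_mem _ (exp_mem ?_)
      simpa using hx0
    cases n with
    | zero =>
      obtain ⟨M, δ, hM, hδ, h1⟩ := hb 1
      refine ⟨M, δ, hM, hδ, fun x y hx hx0 => ?_⟩
      rw [(hW 0).2.2.1 _ (hmem x y hx0), Complex.norm_conj]
      exact h1 x y hx hx0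
    | succ m =>
      obtain ⟨M, δ, hM, hδ, h1⟩ := hb m
      refine ⟨lam / 4 * M, δ, by positivity, hδ, fun x y hx hx0 => ?_⟩
      rw [(hW m).2.1 _ (hmem x y hx0), norm_mul]
      have e : ‖(-((lam : ℂ) / 4))‖ = lam / 4 := by
        rw [norm_neg, norm_div, Complex.norm_real, Real.norm_eq_abs, abs_of_pos hlam]
        norm_num
      rw [e]
      have := h1 x y hx hx0
      gcongr
  have u4 : ∃ M δ : ℝ, 0 < M ∧ 0 < δ ∧ ∀ x y : ℝ, -δ < x → x < 0 →
      ‖Dx (fun ζ => W c v n (φ (Complex.exp ζ))) (x + y * Complex.I)‖ ≤ M := by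
    obtain ⟨M1, δ1, hM1, hδ1, k1⟩ := hb (n + 1)
    obtain ⟨M2, δ2, hM2, hδ2, k2⟩ := hzb
    refine ⟨M1 * MF + M2 * MF, min δ1 δ2, by positivity, lt_min hδ1 hδ2, fun x y hx hx0 => ?_⟩
    have l1 := k1 x y (by linarith [min_le_left δ1 δ2]) hx0
    have l2 := k2 x y (by linarith [min_le_right δ1 δ2]) hx0
    have hre : ((x : ℂ) + y * Complex.I).re < 0 := by simpa using hx0
    have l3 := hMF' _ hre
    have e := (hCHAIN φ r (W c v n) hφ (hW n).1).2 _ hre 1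
    unfold Dx
    rw [e]
    refine (norm_add_le _ _).trans ?_
    simp only [mul_one]
    rw [norm_mul, norm_mul, Complex.norm_conj]
    change ‖W c v (n + 1) (φ (Complex.exp (x + y * Complex.I)))‖ * _ + _ ≤ _
    gcongr
  obtain ⟨M4, δ4, hM4, hδ4, k4⟩ := u4
  -- the limit of the integrand
  set hf : ℂ → ℂ := fun ζ => W c v n (φ (Complex.exp ζ)) * Dx (fun ζ => Bf (φ (Complex.exp ζ))) ζ -
      Bf (φ (Complex.exp ζ)) * Dx (fun ζ => W c v n (φ (Complex.exp ζ))) ζ with hhf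
  have hg2c : Continuous g2 := by
    have h1 := hφ.contDiff_γ.continuous
    have h2 := hφ.contDiff_N.continuous
    rw [hg2]
    unfold ip kf
    exact Complex.continuous_ofReal.comp ((continuous_const.mul (Complex.continuous_re.comp
      ((continuous_const.add (continuous_const.mul h1)).mul
        (Complex.continuous_conj.comp h2)))).neg)
  have hg2p : ∀ y, g2 (y + 2 * Real.pi) = g2 y := by
    intro y
    rw [hg2]
    simp only
    rw [γ_per, N_per]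
  obtain ⟨K1, hK1, b1⟩ := bdd_per (hR n).smg.continuous (hR n).per
  obtain ⟨K2, hK2, b2⟩ := bdd_per hg2c hg2p
  have u12 := UL_mul hK1 hK2 b1 b2 u1 u2
  have u34 : UL (fun ζ => -(Bf (φ (Complex.exp ζ)) * Dx (fun ζ => W c v n (φ (Complex.exp ζ))) ζ))
      (fun _ => 0) := by
    intro ε hε
    obtain ⟨δ3, hδ3, k3⟩ := u3 (ε / M4) (by positivity)
    refine ⟨min δ3 δ4, lt_min hδ3 hδ4, fun x y hx hx0 => ?_⟩
    have l3 := k3 x y (by linarith [min_le_left δ3 δ4]) hx0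
    have l4 := k4 x y (by linarith [min_le_right δ3 δ4]) hx0
    simp only [sub_zero] at l3 ⊢
    rw [norm_neg, norm_mul]
    calc _ ≤ ‖Bf (φ (Complex.exp (x + y * Complex.I)))‖ * M4 := by gcongr
      _ < ε / M4 * M4 := by gcongr
      _ = ε := by field_simp
  have uh : UL hf (fun y => c * U φ lam n y * g2 y + 0) := by
    refine UL_congr (fun ζ _ => ?_) (UL_add u12 u34)
    rw [hhf]
    simp only
    ring
  have hhc : ContinuousOn hf Hp :=
    (hAF.continuousOn.mul (Dx_smooth hBF).continuousOn).sub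
      (hBF.continuousOn.mul (Dx_smooth hAF).continuousOn)
  have hGc : Continuous (fun y => (c : ℂ) * U φ lam n y * g2 y + 0) :=
    ((hR n).smg.continuous.mul hg2c).add continuous_const
  have hfin := int_lim hhc hGc uh hGr
  have e : ∀ y, (c : ℂ) * U φ lam n y * g2 y + 0 =
      (-(lam * c ^ 2) : ℝ) * (U φ lam n y * (ip (kf a b (γ φ y)) (N φ y) : ℂ)) := by
    intro y
    rw [hg2]
    simp only
    push_cast
    ring
  simp only [e] at hfin
  rw [intervalIntegral.integral_const_mul] at hfin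
  rcases mul_eq_zero.1 hfin with h1 | h1
  · exfalso
    have h2 : -(lam * c ^ 2) = 0 := by exact_mod_cast h1
    have h3 : 0 < lam * c ^ 2 := by positivity
    linarith
  · exact h1

end Pool.Agent.P8H88.EV
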